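import Mathlib

set_option autoImplicit false

namespace Pool.Agent.H2.Pencil

open MvPolynomial
open scoped ComplexOrder

/-- The principal submatrix `A[S]`. -/
def principal {R : Type} {n : ℕ} (A : Matrix (Fin n) (Fin n) R) (S : Finset (Fin n)) :
    Matrix {x // x ∈ S} {x // x ∈ S} R :=
  A.submatrix Subtype.val Subtype.val

/-- The mixed determinant `η(A₁, …, Aₘ)`: the sum, over all ordered `m`-tuples of pairwise
disjoint subsets of `[n]` with union `[n]`, of the products of the principal minors. -/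
noncomputable def eta {R : Type} [CommRing R] {m n : ℕ}
    (A : Fin m → Matrix (Fin n) (Fin n) R) : R :=
  ∑ S ∈ (Finset.univ : Finset (Fin m → Finset (Fin n))).filter
      (fun S => (∀ i j, i ≠ j → Disjoint (S i) (S j)) ∧ Finset.univ.biUnion S = Finset.univ),
    ∏ j, (principal (A j) (S j)).det

/-- Real stability. -/
def IsRealStable {l : ℕ} (p : MvPolynomial (Fin l) ℝ) : Prop :=
  p ≠ 0 ∧ ∀ z : Fin l → ℂ, (∀ j, 0 < (z j).im) → aeval z p ≠ 0

/-- The pencil `∑ₖ zₖ Aₖ` in the variables `z₁, …, zₗ`, without constant term. -/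
noncomputable def pencil {l n : ℕ} (A : Fin l → Matrix (Fin n) (Fin n) ℂ) :
    Matrix (Fin n) (Fin n) (MvPolynomial (Fin l) ℂ) :=
  ∑ k, (X k : MvPolynomial (Fin l) ℂ) • (A k).map C

end Pool.Agent.H2.Pencil
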