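import Pool.Agent.H2.PencilDefs

set_option autoImplicit false

namespace Pool.Agent.H2.Pencil

open MvPolynomial
open scoped ComplexOrder

/-! ### The mixed determinant of 2 × 2 matrices -/

lemma map_eta {R S : Type} [CommRing R] [CommRing S] {m n : ℕ} (φ : R →+* S)
    (A : Fin m → Matrix (Fin n) (Fin n) R) :
    φ (eta A) = eta (fun j => (A j).map φ) := by
  rw [eta, eta, map_sum]
  refine Finset.sum_congr rfl fun S _ => ?_
  rw [map_prod]
  refine Finset.prod_congr rfl fun j _ => ?_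
  rw [RingHom.map_det]
  rfl

lemma eval_pencil {l m n : ℕ} (A : Fin m → Fin l → Matrix (Fin n) (Fin n) ℂ) (z : Fin l → ℂ) :
    eval z (eta (fun j => pencil (A j))) = eta (fun j => ∑ k, z k • A j k) := by
  rw [map_eta]
  congr 1
  funext j
  ext a b
  simp [pencil, Matrix.sum_apply]

lemma det_principal_empty {n : ℕ} (A : Matrix (Fin n) (Fin n) ℂ) :
    (principal A ∅).det = 1 := by
  exact Matrix.det_isEmpty

lemma det_principal_univ {n : ℕ} (A : Matrix (Fin n) (Fin n) ℂ) :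
    (principal A Finset.univ).det = A.det := by
  have := Matrix.det_submatrix_equiv_self
    (Equiv.subtypeUnivEquiv (fun x : Fin n => Finset.mem_univ x)) A
  exact this

lemma det_principal_single {n : ℕ} (A : Matrix (Fin n) (Fin n) ℂ) (i : Fin n) :
    (principal A {i}).det = A i i := by
  let e : Fin 1 → {x // x ∈ ({i} : Finset (Fin n))} := fun _ => ⟨i, by simp⟩
  have he : Function.Bijective e := by
    constructor
    · intro a b _
      exact Subsingleton.elim a b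
    · rintro ⟨x, hx⟩
      refine ⟨0, ?_⟩
      rw [Finset.mem_singleton] at hx
      subst hx
      rfl
  rw [← Matrix.det_submatrix_equiv_self (Equiv.ofBijective e he), Matrix.det_fin_one]
  rfl

/-- The tuples of sets are the fibres of functions. -/
lemma sum_tuples {m n : ℕ} (G : (Fin m → Finset (Fin n)) → ℂ) :
    ∑ S ∈ (Finset.univ : Finset (Fin m → Finset (Fin n))).filter
      (fun S => (∀ i j, i ≠ j → Disjoint (S i) (S j)) ∧ Finset.univ.biUnion S = Finset.univ),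
      G S = ∑ f : Fin n → Fin m, G (fun j => Finset.univ.filter (fun x => f x = j)) := by
  symm
  apply Finset.sum_bij (fun (f : Fin n → Fin m) _ => fun j => Finset.univ.filter (fun x => f x = j))
  · intro f _
    rw [Finset.mem_filter]
    refine ⟨Finset.mem_univ _, ?_, ?_⟩
    · intro i j hij
      rw [Finset.disjoint_left]
      intro x hx hy
      rw [Finset.mem_filter] at hx hy
      exact hij (hx.2.symm.trans hy.2)
    · ext x
      simp
  · intro f _ g _ hfg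
    funext x
    have := congrFun hfg (f x)
    have hx : x ∈ Finset.univ.filter (fun y => f y = f x) := by simp
    rw [this, Finset.mem_filter] at hx
    exact hx.2.symm
  · intro S hS
    rw [Finset.mem_filter] at hS
    obtain ⟨-, hd, hu⟩ := hS
    have hex : ∀ x : Fin n, ∃ j, x ∈ S j := by
      intro x
      have : x ∈ Finset.univ.biUnion S := by rw [hu]; exact Finset.mem_univ x
      simpa using this
    choose f hf using hex
    refine ⟨f, Finset.mem_univ _, ?_⟩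
    funext j
    ext x
    rw [Finset.mem_filter]
    constructor
    · rintro ⟨-, rfl⟩
      exact hf x
    · intro hx
      refine ⟨Finset.mem_univ _, ?_⟩
      by_contra hne
      exact (Finset.disjoint_left.1 (hd _ _ hne)) (hf x) hx
  · intro f _
    rfl

lemma prod_fibre {m : ℕ} (A : Fin m → Matrix (Fin 2) (Fin 2) ℂ) (a b : Fin m) :
    ∏ j, (principal (A j) (Finset.univ.filter (fun x => (![a, b] : Fin 2 → Fin m) x = j))).det =
      A a 0 0 * A b 1 1 - (if a = b then A a 0 1 * A a 1 0 else 0) := by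
  by_cases hab : a = b
  · subst hab
    rw [Finset.prod_eq_single a]
    · have h : Finset.univ.filter (fun x => (![a, a] : Fin 2 → Fin m) x = a) = Finset.univ := by
        ext x
        fin_cases x <;> simp
      rw [h, det_principal_univ, Matrix.det_fin_two, if_pos rfl]
    · intro j _ hj
      have h : Finset.univ.filter (fun x => (![a, a] : Fin 2 → Fin m) x = j) = ∅ := by
        ext x
        fin_cases x <;> simp [hj.symm]
      rw [h, det_principal_empty]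
    · intro h
      exact absurd (Finset.mem_univ a) h
  · rw [Finset.prod_eq_mul a b hab]
    · have h0 : Finset.univ.filter (fun x => (![a, b] : Fin 2 → Fin m) x = a) = {0} := by
        ext x
        fin_cases x
        · simp
        · have hba : ¬ b = a := fun h => hab h.symm
          simp [hba]
      have h1 : Finset.univ.filter (fun x => (![a, b] : Fin 2 → Fin m) x = b) = {1} := by
        ext x
        fin_cases x
        · simp [hab]
        · simp
      rw [h0, h1, det_principal_single, det_principal_single, if_neg hab, sub_zero]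
    · intro j _ hj
      have h : Finset.univ.filter (fun x => (![a, b] : Fin 2 → Fin m) x = j) = ∅ := by
        ext x
        fin_cases x
        · simp [hj.1.symm]
        · simp [hj.2.symm]
      rw [h, det_principal_empty]
    · intro h
      exact absurd (Finset.mem_univ a) h
    · intro h
      exact absurd (Finset.mem_univ b) h

lemma eta_two {m : ℕ} (A : Fin m → Matrix (Fin 2) (Fin 2) ℂ) :
    eta A = (∑ a, A a 0 0) * (∑ b, A b 1 1) - ∑ a, A a 0 1 * A a 1 0 := by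
  rw [eta, sum_tuples]
  rw [Fintype.sum_equiv (finTwoArrowEquiv (Fin m)) _
    (fun p : Fin m × Fin m => ∏ j, (principal (A j)
      (Finset.univ.filter (fun x => (![p.1, p.2] : Fin 2 → Fin m) x = j))).det)]
  · rw [Fintype.sum_prod_type]
    simp only [prod_fibre]
    rw [Finset.sum_mul_sum]
    simp only [Finset.sum_sub_distrib, Finset.sum_ite_eq, Finset.mem_univ, if_true]
  · intro f
    have hf : (![f 0, f 1] : Fin 2 → Fin m) = f := by
      funext x
      fin_cases x <;> rfl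
    show _ = ∏ j, (principal (A j)
      (Finset.univ.filter (fun x => (![f 0, f 1] : Fin 2 → Fin m) x = j))).det
    rw [hf]

/-! ### The polynomial -/

def T : Fin 7 → ℤ := ![3, 3, 1, 2, 3, 3, 3]
def Y1 : Fin 7 → ℤ := ![-2, 0, 0, -1, -1, 2, -1]
def Y2 : Fin 7 → ℤ := ![-2, -1, 0, -1, -2, -2, -2]
def Y3 : Fin 7 → ℤ := ![-1, -2, 0, 1, -2, 0, 0]
def Y4 : Fin 7 → ℤ := ![0, -2, 1, 1, 0, -1, -2]

/-- The Gram matrix of the seven light-like vectors. -/
def W (k l : Fin 7) : ℤ := T k * T l - Y1 k * Y1 l - Y2 k * Y2 l - Y3 k * Y3 l - Y4 k * Y4 l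

/-- A linear form with integer coefficients. -/
noncomputable def lin (c : Fin 7 → ℤ) : MvPolynomial (Fin 7) ℝ := ∑ k, C (c k : ℝ) * X k

/-- The polynomial. -/
noncomputable def pol : MvPolynomial (Fin 7) ℝ :=
  lin T * lin T - lin Y1 * lin Y1 - lin Y2 * lin Y2 - lin Y3 * lin Y3 - lin Y4 * lin Y4

lemma lin_mul_lin (c : Fin 7 → ℤ) :
    lin c * lin c = ∑ k, ∑ l, C ((c k * c l : ℤ) : ℝ) * (X k * X l) := by
  rw [lin, Finset.sum_mul_sum]
  refine Finset.sum_congr rfl fun k _ => Finset.sum_congr rfl fun l _ => ?_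
  push_cast
  rw [C_mul]
  ring

lemma pol_eq : pol = ∑ k, ∑ l, C ((W k l : ℤ) : ℝ) * (X k * X l) := by
  rw [pol, lin_mul_lin, lin_mul_lin, lin_mul_lin, lin_mul_lin, lin_mul_lin]
  rw [← Finset.sum_sub_distrib, ← Finset.sum_sub_distrib, ← Finset.sum_sub_distrib,
    ← Finset.sum_sub_distrib]
  refine Finset.sum_congr rfl fun k _ => ?_
  rw [← Finset.sum_sub_distrib, ← Finset.sum_sub_distrib, ← Finset.sum_sub_distrib,
    ← Finset.sum_sub_distrib]
  refine Finset.sum_congr rfl fun l _ => ?_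
  rw [W]
  push_cast
  simp only [C_sub]
  ring

lemma W_nonneg : ∀ k l, 0 ≤ W k l := by decide

lemma pol_coeff_nonneg (e : Fin 7 →₀ ℕ) : 0 ≤ coeff e pol := by
  rw [pol_eq, coeff_sum]
  refine Finset.sum_nonneg fun k _ => ?_
  rw [coeff_sum]
  refine Finset.sum_nonneg fun l _ => ?_
  rw [coeff_C_mul]
  refine mul_nonneg (by exact_mod_cast W_nonneg k l) ?_
  rw [X, X, monomial_mul, coeff_monomial]
  split_ifs <;> norm_num

lemma lin_hom (c : Fin 7 → ℤ) : (lin c).IsHomogeneous 1 := by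
  refine IsHomogeneous.sum _ _ _ fun k _ => ?_
  have := (isHomogeneous_C (Fin 7) (c k : ℝ)).mul (isHomogeneous_X ℝ k)
  simpa using this

lemma pol_hom : pol.IsHomogeneous 2 := by
  have h : ∀ c, (lin c * lin c).IsHomogeneous 2 := fun c => (lin_hom c).mul (lin_hom c)
  exact ((((h T).sub (h Y1)).sub (h Y2)).sub (h Y3)).sub (h Y4)

/-- complex evaluation of the linear forms -/
lemma aeval_lin (c : Fin 7 → ℤ) (z : Fin 7 → ℂ) :
    aeval z (lin c) = ((∑ k, (c k : ℝ) * (z k).re : ℝ) : ℂ)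
      + ((∑ k, (c k : ℝ) * (z k).im : ℝ) : ℂ) * Complex.I := by
  rw [lin, map_sum]
  push_cast
  rw [Finset.sum_mul, ← Finset.sum_add_distrib]
  refine Finset.sum_congr rfl fun k _ => ?_
  rw [map_mul, aeval_X, aeval_C]
  have : (algebraMap ℝ ℂ) (c k : ℝ) = (c k : ℂ) := by simp
  rw [this]
  conv_lhs => rw [← Complex.re_add_im (z k)]
  ring

lemma quad_pos (y : Fin 7 → ℝ) (hy : ∀ k, 0 < y k) :
    (∑ k, (Y1 k : ℝ) * y k) ^ 2 + (∑ k, (Y2 k : ℝ) * y k) ^ 2 + (∑ k, (Y3 k : ℝ) * y k) ^ 2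
      + (∑ k, (Y4 k : ℝ) * y k) ^ 2 < (∑ k, (T k : ℝ) * y k) ^ 2 := by
  have h : (∑ k, (T k : ℝ) * y k) ^ 2 - ((∑ k, (Y1 k : ℝ) * y k) ^ 2
      + (∑ k, (Y2 k : ℝ) * y k) ^ 2 + (∑ k, (Y3 k : ℝ) * y k) ^ 2
      + (∑ k, (Y4 k : ℝ) * y k) ^ 2) = ∑ k, ∑ l, ((W k l : ℤ) : ℝ) * (y k * y l) := by
    simp only [pow_two, Finset.sum_mul_sum]
    rw [← Finset.sum_add_distrib, ← Finset.sum_add_distrib, ← Finset.sum_add_distrib,
      ← Finset.sum_sub_distrib]
    refine Finset.sum_congr rfl fun k _ => ?_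
    rw [← Finset.sum_add_distrib, ← Finset.sum_add_distrib, ← Finset.sum_add_distrib,
      ← Finset.sum_sub_distrib]
    refine Finset.sum_congr rfl fun l _ => ?_
    rw [W]
    push_cast
    ring
  have h2 : 0 < ∑ k, ∑ l, ((W k l : ℤ) : ℝ) * (y k * y l) := by
    refine Finset.sum_pos' (fun k _ => Finset.sum_nonneg fun l _ => ?_) ⟨0, Finset.mem_univ _, ?_⟩
    · exact mul_nonneg (by exact_mod_cast W_nonneg k l) (mul_pos (hy k) (hy l)).le
    · refine Finset.sum_pos' (fun l _ => ?_) ⟨1, Finset.mem_univ _, ?_⟩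
      · exact mul_nonneg (by exact_mod_cast W_nonneg 0 l) (mul_pos (hy 0) (hy l)).le
      · have : (0 : ℤ) < W 0 1 := by decide
        exact mul_pos (by exact_mod_cast this) (mul_pos (hy 0) (hy 1))
  linarith

/-- The reversed Cauchy–Schwarz inequality. -/
lemma lorentz (s s' u1 u1' u2 u2' u3 u3' u4 u4' : ℝ)
    (h' : u1' ^ 2 + u2' ^ 2 + u3' ^ 2 + u4' ^ 2 < s' ^ 2)
    (hre : s ^ 2 - s' ^ 2 - (u1 ^ 2 - u1' ^ 2) - (u2 ^ 2 - u2' ^ 2) - (u3 ^ 2 - u3' ^ 2)
      - (u4 ^ 2 - u4' ^ 2) = 0)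
    (him : s * s' - u1 * u1' - u2 * u2' - u3 * u3' - u4 * u4' = 0) : False := by
  have h : u1 ^ 2 + u2 ^ 2 + u3 ^ 2 + u4 ^ 2 < s ^ 2 := by linarith
  have hcs : (u1 * u1' + u2 * u2' + u3 * u3' + u4 * u4') ^ 2 ≤
      (u1 ^ 2 + u2 ^ 2 + u3 ^ 2 + u4 ^ 2) * (u1' ^ 2 + u2' ^ 2 + u3' ^ 2 + u4' ^ 2) := by
    nlinarith [sq_nonneg (u1 * u2' - u2 * u1'), sq_nonneg (u1 * u3' - u3 * u1'),
      sq_nonneg (u1 * u4' - u4 * u1'), sq_nonneg (u2 * u3' - u3 * u2'),
      sq_nonneg (u2 * u4' - u4 * u2'), sq_nonneg (u3 * u4' - u4 * u3')]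
  have hs : s * s' = u1 * u1' + u2 * u2' + u3 * u3' + u4 * u4' := by linarith
  rw [← hs] at hcs
  have n1 : 0 ≤ u1 ^ 2 + u2 ^ 2 + u3 ^ 2 + u4 ^ 2 := by positivity
  have n2 : 0 ≤ u1' ^ 2 + u2' ^ 2 + u3' ^ 2 + u4' ^ 2 := by positivity
  have := mul_lt_mul'' h h' n1 n2
  have e : (s * s') ^ 2 = s ^ 2 * s' ^ 2 := by ring
  linarith

lemma pol_stable : IsRealStable pol := by
  have key : ∀ z : Fin 7 → ℂ, (∀ j, 0 < (z j).im) → aeval z pol ≠ 0 := by
    intro z hz h0
    have hq := quad_pos (fun k => (z k).im) hz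
    simp only [pol, map_sub, map_mul, aeval_lin] at h0
    obtain ⟨s, hs⟩ : ∃ s, s = ∑ k, (T k : ℝ) * (z k).re := ⟨_, rfl⟩
    obtain ⟨s', hs'⟩ : ∃ s, s = ∑ k, (T k : ℝ) * (z k).im := ⟨_, rfl⟩
    obtain ⟨u1, hu1⟩ : ∃ s, s = ∑ k, (Y1 k : ℝ) * (z k).re := ⟨_, rfl⟩
    obtain ⟨u1', hu1'⟩ : ∃ s, s = ∑ k, (Y1 k : ℝ) * (z k).im := ⟨_, rfl⟩
    obtain ⟨u2, hu2⟩ : ∃ s, s = ∑ k, (Y2 k : ℝ) * (z k).re := ⟨_, rfl⟩
    obtain ⟨u2', hu2'⟩ : ∃ s, s = ∑ k, (Y2 k : ℝ) * (z k).im := ⟨_, rfl⟩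
    obtain ⟨u3, hu3⟩ : ∃ s, s = ∑ k, (Y3 k : ℝ) * (z k).re := ⟨_, rfl⟩
    obtain ⟨u3', hu3'⟩ : ∃ s, s = ∑ k, (Y3 k : ℝ) * (z k).im := ⟨_, rfl⟩
    obtain ⟨u4, hu4⟩ : ∃ s, s = ∑ k, (Y4 k : ℝ) * (z k).re := ⟨_, rfl⟩
    obtain ⟨u4', hu4'⟩ : ∃ s, s = ∑ k, (Y4 k : ℝ) * (z k).im := ⟨_, rfl⟩
    rw [← hs, ← hs', ← hu1, ← hu1', ← hu2, ← hu2', ← hu3, ← hu3', ← hu4, ← hu4'] at h0
    rw [← hs', ← hu1', ← hu2', ← hu3', ← hu4'] at hq
    have hre := congrArg Complex.re h0
    have him := congrArg Complex.im h0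
    simp at hre him
    exact lorentz s s' u1 u1' u2 u2' u3 u3' u4 u4' hq (by nlinarith) (by nlinarith)
  refine ⟨?_, key⟩
  intro h0
  apply key (fun _ => Complex.I) (fun _ => by simp)
  rw [h0, map_zero]

/-! ### The combinatorial and numerical certificates -/

/-- For every five indices: a matrix `K` and `d ≠ 0` with `K * W = d` on these indices. -/
def tab : List ((Fin 5 → Fin 7) × (Fin 5 → Fin 5 → ℤ) × ℤ) := [
  (![0, 1, 2, 3, 4], ![![-299, -17, -235, 211, 257], ![-17, -11, -5, 13, 31], ![-235, -5, -275, 215, 205], ![211, 13, 215, -179, -173], ![257, 31, 205, -173, -251]], 100),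
  (![0, 1, 2, 3, 5], ![![-684, 488, -366, 740, -282], ![488, -432, 324, -504, 300], ![-366, 324, -1139, 890, -97], ![740, -504, 890, -1100, 350], ![-282, 300, -97, 350, -251]], 1024),
  (![0, 1, 2, 3, 6], ![![-11, 41, -91, 73, -49], ![41, -171, 381, -303, 207], ![-91, 381, -851, 677, -461], ![73, -303, 677, -539, 367], ![-49, 207, -461, 367, -251]], 4),
  (![0, 1, 2, 4, 5], ![![-656, 8, 276, 680, -28], ![8, -332, -114, 292, 190], ![276, -114, -531, 30, 237], ![680, 292, 30, -1100, -50], ![-28, 190, 237, -50, -179]], 1296),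
  (![0, 1, 2, 4, 6], ![![-524, -248, 68, 494, 266], ![-248, -176, 40, 268, 164], ![68, 40, -44, -26, -14], ![494, 268, -26, -539, -241], ![266, 164, -14, -241, -179]], 256),
  (![0, 1, 2, 5, 6], ![![-96, 16, 96, -48, 80], ![16, -36, -6, 18, 12], ![96, -6, -121, 67, -70], ![-48, 18, 67, -49, 50], ![80, 12, -70, 50, -100]], 176),
  (![0, 1, 3, 4, 5], ![![-1811, 317, 879, 1223, -505], ![317, -299, -213, 19, 235], ![879, -213, -531, -447, 345], ![1223, 19, -447, -1139, 265], ![-505, 235, 345, 265, -275]], 900),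
  (![0, 1, 3, 4, 6], ![![-864, -352, 96, 792, 360], ![-352, -236, 28, 406, 230], ![96, 28, -44, -38, 10], ![792, 406, -38, -851, -355], ![360, 230, 10, -355, -275]], 400),
  (![0, 1, 3, 5, 6], ![![-2099, 1139, 1513, -937, 521], ![1139, -1179, -813, 837, 267], ![1513, -813, -1331, 911, -47], ![-937, 837, 911, -851, 247], ![521, 267, -47, 247, -1139]], 3364),
  (![0, 1, 4, 5, 6], ![![-1004, -400, 1118, -52, 642], ![-400, -320, 520, 16, 312], ![1118, 520, -1331, 82, -669], ![-52, 16, 82, -44, 78], ![642, 312, -669, 78, -531]], 576),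
  (![0, 2, 3, 4, 5], ![![-524, -354, 404, 472, -62], ![-354, -299, 302, 324, -37], ![404, 302, -332, -360, 50], ![472, 324, -360, -432, 60], ![-62, -37, 50, 60, -11]], 64),
  (![0, 2, 3, 4, 6], ![![-204, -188, 168, 178, -18], ![-188, -236, 200, 186, -26], ![168, 200, -176, -156, 28], ![178, 186, -156, -171, 27], ![-18, -26, 28, 27, -11]], 64),
  (![0, 2, 3, 5, 6], ![![-100, 130, -20, -50, 104], ![130, -393, 186, 129, -180], ![-20, 186, -132, -42, 72], ![-50, 129, -42, -57, 84], ![104, -180, 72, 84, -144]], 192),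
  (![0, 2, 4, 5, 6], ![![-236, 120, 142, -92, 130], ![120, -80, -60, 56, -68], ![142, -60, -99, 54, -69], ![-92, 56, 54, -44, 58], ![130, -68, -69, 58, -83]], 64),
  (![0, 3, 4, 5, 6], ![![-2476, 880, 1702, -756, 842], ![880, -320, -600, 272, -296], ![1702, -600, -1179, 522, -573], ![-756, 272, 522, -236, 262], ![842, -296, -573, 262, -299]], 64),
  (![1, 2, 3, 4, 5], ![![-524, 18, -136, 500, 314], ![18, -1811, 884, 138, 137], ![-136, 884, -656, 248, 148], ![500, 138, 248, -684, -174], ![314, 137, 148, -174, -299]], 1936),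
  (![1, 2, 3, 4, 6], ![![-204, 416, -324, 38, 246], ![416, -864, 672, -72, -504], ![-324, 672, -524, 58, 394], ![38, -72, 58, -11, -43], ![246, -504, 394, -43, -299]], 16),
  (![1, 2, 3, 5, 6], ![![-300, 790, -560, -50, 452], ![790, -2099, 1488, 137, -1194], ![-560, 1488, -1056, -96, 848], ![-50, 137, -96, -11, 78], ![452, -1194, 848, 78, -684]], 16),
  (![1, 2, 4, 5, 6], ![![-236, -66, 152, 86, 76], ![-66, -251, 192, 137, -2], ![152, 192, -264, -72, 64], ![86, 137, -72, -131, 62], ![76, -2, 64, 62, -164]], 784),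
  (![1, 3, 4, 5, 6], ![![-2476, -932, 1782, 992, 1286], ![-932, -1004, 1114, 672, 778], ![1782, 1114, -2099, -504, -403], ![992, 672, -504, -864, -72], ![1286, 778, -403, -72, -1811]], 5776),
  (![2, 3, 4, 5, 6], ![![-619, 358, 155, 137, -223], ![358, -236, -70, -66, 142], ![155, -70, -75, -25, 79], ![137, -66, -25, -51, 69], ![-223, 142, 79, 69, -131]], 256)]

/-- Pairs of disjoint triples of indices. -/
def trip : List ((Fin 3 → Fin 7) × (Fin 3 → Fin 7)) := [
  (![0, 1, 2], ![3, 4, 5]), (![0, 1, 2], ![3, 4, 6]), (![0, 1, 2], ![3, 5, 6]),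
  (![0, 1, 2], ![4, 5, 6]), (![0, 1, 3], ![2, 4, 5]), (![0, 1, 3], ![2, 4, 6]),
  (![0, 1, 3], ![2, 5, 6]), (![0, 1, 3], ![4, 5, 6]), (![0, 1, 4], ![2, 3, 5]),
  (![0, 1, 4], ![2, 3, 6]), (![0, 1, 4], ![2, 5, 6]), (![0, 1, 4], ![3, 5, 6]),
  (![0, 1, 5], ![2, 3, 4]), (![0, 1, 5], ![2, 3, 6]), (![0, 1, 5], ![2, 4, 6]),
  (![0, 1, 5], ![3, 4, 6]), (![0, 1, 6], ![2, 3, 4]), (![0, 1, 6], ![2, 3, 5]),
  (![0, 1, 6], ![2, 4, 5]), (![0, 1, 6], ![3, 4, 5]), (![0, 2, 3], ![1, 4, 5]),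
  (![0, 2, 3], ![1, 4, 6]), (![0, 2, 3], ![1, 5, 6]), (![0, 2, 3], ![4, 5, 6]),
  (![0, 2, 4], ![1, 3, 5]), (![0, 2, 4], ![1, 3, 6]), (![0, 2, 4], ![1, 5, 6]),
  (![0, 2, 4], ![3, 5, 6]), (![0, 2, 5], ![1, 3, 4]), (![0, 2, 5], ![1, 3, 6]),
  (![0, 2, 5], ![1, 4, 6]), (![0, 2, 5], ![3, 4, 6]), (![0, 2, 6], ![1, 3, 4]),
  (![0, 2, 6], ![1, 3, 5]), (![0, 2, 6], ![1, 4, 5]), (![0, 2, 6], ![3, 4, 5]),
  (![0, 3, 4], ![1, 2, 5]), (![0, 3, 4], ![1, 2, 6]), (![0, 3, 4], ![1, 5, 6]),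
  (![0, 3, 4], ![2, 5, 6]), (![0, 3, 5], ![1, 2, 4]), (![0, 3, 5], ![1, 2, 6]),
  (![0, 3, 5], ![1, 4, 6]), (![0, 3, 5], ![2, 4, 6]), (![0, 3, 6], ![1, 2, 4]),
  (![0, 3, 6], ![1, 2, 5]), (![0, 3, 6], ![1, 4, 5]), (![0, 3, 6], ![2, 4, 5]),
  (![0, 4, 5], ![1, 2, 3]), (![0, 4, 5], ![1, 2, 6]), (![0, 4, 5], ![1, 3, 6]),
  (![0, 4, 5], ![2, 3, 6]), (![0, 4, 6], ![1, 2, 3]), (![0, 4, 6], ![1, 2, 5]),
  (![0, 4, 6], ![1, 3, 5]), (![0, 4, 6], ![2, 3, 5]), (![0, 5, 6], ![1, 2, 3]),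
  (![0, 5, 6], ![1, 2, 4]), (![0, 5, 6], ![1, 3, 4]), (![0, 5, 6], ![2, 3, 4]),
  (![1, 2, 3], ![4, 5, 6]), (![1, 2, 4], ![3, 5, 6]), (![1, 2, 5], ![3, 4, 6]),
  (![1, 2, 6], ![3, 4, 5]), (![1, 3, 4], ![2, 5, 6]), (![1, 3, 5], ![2, 4, 6]),
  (![1, 3, 6], ![2, 4, 5]), (![1, 4, 5], ![2, 3, 6]), (![1, 4, 6], ![2, 3, 5]),
  (![1, 5, 6], ![2, 3, 4])]

lemma tab_ok : ∀ x ∈ tab, x.2.2 ≠ 0 ∧ ∀ i l : Fin 5,
    ∑ j, x.2.1 i j * W (x.1 j) (x.1 l) = if i = l then x.2.2 else 0 := by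
  decide +kernel

/-- The 3 × 3 determinant, for integers. -/
def det3Z (w : Fin 3 → Fin 3 → ℤ) : ℤ :=
  w 0 0 * (w 1 1 * w 2 2 - w 1 2 * w 2 1) - w 0 1 * (w 1 0 * w 2 2 - w 1 2 * w 2 0)
    + w 0 2 * (w 1 0 * w 2 1 - w 1 1 * w 2 0)

/-- The 3 × 3 determinant, for real numbers. -/
noncomputable def det3 (w : Fin 3 → Fin 3 → ℝ) : ℝ :=
  w 0 0 * (w 1 1 * w 2 2 - w 1 2 * w 2 1) - w 0 1 * (w 1 0 * w 2 2 - w 1 2 * w 2 0)
    + w 0 2 * (w 1 0 * w 2 1 - w 1 1 * w 2 0)

lemma trip_ok0 : trip.all (fun y => !(det3Z (fun i j => W (y.1 i) (y.2 j)) == 0)) = true := by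
  decide +kernel

lemma trip_ok : ∀ y ∈ trip, det3Z (fun i j => W (y.1 i) (y.2 j)) ≠ 0 := by
  intro y hy h
  have := List.all_eq_true.1 trip_ok0 y hy
  rw [h] at this
  exact absurd this (by decide)

def lb (g : List ℕ) (k : Fin 7) : ℕ := g.getD k.1 0

def idem (g : List ℕ) : Bool :=
  (List.range 7).all (fun k => Nat.beq (g.getD (g.getD k 0) 0) (g.getD k 0))

def chk (g : List ℕ) : Bool :=
  !(idem g) || (trip.any (fun y => decide (∀ i j, lb g (y.1 i) ≠ lb g (y.2 j))) ||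
    tab.any (fun x => decide (∀ i, lb g (x.1 i) = lb g (x.1 0))))

def rgs : ℕ → List (List ℕ)
  | 0 => [[]]
  | n + 1 => (rgs n).flatMap (fun g => (List.range (n + 1)).map (fun v => g ++ [v]))

lemma rgs_step {n : ℕ} {g : List ℕ} (hg : g ∈ rgs n) {v : ℕ} (hv : v < n + 1) :
    g ++ [v] ∈ rgs (n + 1) := by
  rw [rgs, List.mem_flatMap]
  exact ⟨g, hg, List.mem_map.2 ⟨v, List.mem_range.2 hv, rfl⟩⟩

lemma chk_all : ∀ g ∈ rgs 7, chk g = true := by
  have : (rgs 7).all chk = true := by decide +kernel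
  exact List.all_eq_true.1 this

lemma comb {α : Type} (κ : Fin 7 → α) :
    (∃ y ∈ trip, ∀ i j, κ (y.1 i) ≠ κ (y.2 j)) ∨ (∃ x ∈ tab, ∀ i j, κ (x.1 i) = κ (x.1 j)) := by
  classical
  obtain ⟨g, hg1, hg2, hg3⟩ : ∃ g : Fin 7 → Fin 7, (∀ k, g k ≤ k) ∧
      (∀ k l, g k = g l ↔ κ k = κ l) ∧ ∀ k, κ (g k) = κ k := by
    have hne : ∀ k, (Finset.univ.filter (fun l => κ l = κ k)).Nonempty :=
      fun k => ⟨k, by simp⟩
    have hmem : ∀ k, κ ((Finset.univ.filter (fun l => κ l = κ k)).min' (hne k)) = κ k := by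
      intro k
      have h1 := Finset.min'_mem _ (hne k)
      rw [Finset.mem_filter] at h1
      exact h1.2
    refine ⟨fun k => (Finset.univ.filter (fun l => κ l = κ k)).min' (hne k), ?_, ?_, hmem⟩
    · intro k
      exact Finset.min'_le _ _ (by simp)
    · intro k l
      constructor
      · intro h
        have h' : (Finset.univ.filter (fun l => κ l = κ k)).min' (hne k) =
          (Finset.univ.filter (fun j => κ j = κ l)).min' (hne l) := h
        rw [← hmem k, ← hmem l, h']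
      · intro h
        have : Finset.univ.filter (fun j => κ j = κ k) = Finset.univ.filter (fun j => κ j = κ l) := by
          rw [h]
        simp only [this]
  have hb : ∀ k, (g k).1 < k.1 + 1 := fun k => Nat.lt_succ_of_le (Fin.le_def.1 (hg1 k))
  obtain ⟨L, hL⟩ : ∃ L : List ℕ, L = [(g 0).1, (g 1).1, (g 2).1, (g 3).1, (g 4).1, (g 5).1,
    (g 6).1] := ⟨_, rfl⟩
  have hmem : L ∈ rgs 7 := by
    rw [hL]
    have r0 : ([] : List ℕ) ∈ rgs 0 := by simp [rgs]
    have r1 := rgs_step r0 (hb 0)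
    have r2 := rgs_step r1 (hb 1)
    have r3 := rgs_step r2 (hb 2)
    have r4 := rgs_step r3 (hb 3)
    have r5 := rgs_step r4 (hb 4)
    have r6 := rgs_step r5 (hb 5)
    exact rgs_step r6 (hb 6)
  have hlb : ∀ k : Fin 7, L.getD k.1 0 = (g k).1 := by
    intro k
    rw [hL]
    fin_cases k <;> rfl
  have hid : idem L = true := by
    rw [idem, List.all_eq_true]
    intro k hk
    rw [List.mem_range] at hk
    have h1 := hlb ⟨k, hk⟩
    have h2 := hlb (g ⟨k, hk⟩)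
    have h3 : g (g ⟨k, hk⟩) = g ⟨k, hk⟩ := (hg2 _ _).2 (hg3 _)
    change L.getD k 0 = _ at h1
    rw [h1, h2, h3]
    exact Nat.beq_refl _
  have hc := chk_all L hmem
  rw [chk, hid] at hc
  simp only [Bool.not_true, Bool.false_or] at hc
  rw [Bool.or_eq_true, List.any_eq_true, List.any_eq_true] at hc
  rcases hc with ⟨y, hy, h⟩ | ⟨x, hx, h⟩
  · left
    refine ⟨y, hy, fun i j => ?_⟩
    have := of_decide_eq_true h i j
    rw [lb, lb, hlb, hlb] at this
    intro hk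
    exact this (congrArg Fin.val ((hg2 _ _).2 hk))
  · right
    refine ⟨x, hx, fun i j => ?_⟩
    have h' := of_decide_eq_true h
    rw [← hg2]
    apply Fin.ext
    have hi := h' i
    have hj := h' j
    rw [lb, lb, hlb, hlb] at hi hj
    rw [hi, hj]

/-! ### Linear algebra -/

lemma five (A B P Q : Fin 5 → ℝ) (s : Fin 5 → Fin 7) (K : Fin 5 → Fin 5 → ℤ) (d : ℤ)
    (hW : ∀ i j, A i * B j + A j * B i - 2 * (P i * P j + Q i * Q j) = 2 * (W (s i) (s j) : ℝ))
    (hd : d ≠ 0) (hK : ∀ i l : Fin 5, ∑ j, K i j * W (s j) (s l) = if i = l then d else 0) :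
    False := by
  obtain ⟨v, hv, hv0⟩ : ∃ v : Fin 5 → ℝ, (∑ j, A j * v j = 0 ∧ ∑ j, B j * v j = 0 ∧
      ∑ j, P j * v j = 0 ∧ ∑ j, Q j * v j = 0) ∧ v ≠ 0 := by
    have hlt : Module.finrank ℝ (Fin 4 → ℝ) < Module.finrank ℝ (Fin 5 → ℝ) := by
      simp
    have h := LinearMap.ker_ne_bot_of_finrank_lt
      (f := Matrix.mulVecLin (Matrix.of ![A, B, P, Q])) hlt
    obtain ⟨v, hv, hv0⟩ := (Submodule.ne_bot_iff _).1 h
    refine ⟨v, ?_, hv0⟩
    rw [LinearMap.mem_ker, Matrix.mulVecLin_apply] at hv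
    have e0 := congrFun hv 0
    have e1 := congrFun hv 1
    have e2 := congrFun hv 2
    have e3 := congrFun hv 3
    exact ⟨e0, e1, e2, e3⟩
  obtain ⟨hA, hB, hP, hQ⟩ := hv
  apply hv0
  have hz : ∀ j, ∑ l, (W (s j) (s l) : ℝ) * v l = 0 := by
    intro j
    have : ∑ l, (W (s j) (s l) : ℝ) * v l = (1 / 2) * (A j * ∑ l, B l * v l + B j * ∑ l, A l * v l
        - 2 * (P j * ∑ l, P l * v l + Q j * ∑ l, Q l * v l)) := by
      simp only [Finset.mul_sum]
      rw [← Finset.sum_add_distrib, ← Finset.sum_add_distrib, Finset.mul_sum,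
        ← Finset.sum_sub_distrib, Finset.mul_sum]
      refine Finset.sum_congr rfl fun l _ => ?_
      have := hW j l
      linear_combination (-(1 / 2) * v l) * this
    rw [this, hA, hB, hP, hQ]
    ring
  funext i
  have h1 : ∑ j, (K i j : ℝ) * ∑ l, (W (s j) (s l) : ℝ) * v l = 0 := by
    refine Finset.sum_eq_zero fun j _ => ?_
    rw [hz j, mul_zero]
  have h2 : ∑ j, (K i j : ℝ) * ∑ l, (W (s j) (s l) : ℝ) * v l =
      ∑ l, (∑ j, (K i j : ℝ) * (W (s j) (s l) : ℝ)) * v l := by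
    simp only [Finset.mul_sum, Finset.sum_mul]
    rw [Finset.sum_comm]
    refine Finset.sum_congr rfl fun l _ => Finset.sum_congr rfl fun j _ => ?_
    ring
  have h3 : ∀ l, ∑ j, (K i j : ℝ) * (W (s j) (s l) : ℝ) = if i = l then (d : ℝ) else 0 := by
    intro l
    have := hK i l
    have h := congrArg (fun x : ℤ => (x : ℝ)) this
    push_cast at h
    rw [h]
  rw [h2] at h1
  simp only [h3, ite_mul, zero_mul, Finset.sum_ite_eq, Finset.mem_univ, if_true] at h1
  have hd' : (d : ℝ) ≠ 0 := by exact_mod_cast hd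
  simpa [hd'] using h1

lemma three (A B A' B' : Fin 3 → ℝ) (w : Fin 3 → Fin 3 → ℝ)
    (h : ∀ i j, A i * B' j + A' j * B i = 2 * w i j) : det3 w = 0 := by
  have hw : ∀ i j, w i j = (A i * B' j + A' j * B i) / 2 := by
    intro i j
    rw [h i j]
    ring
  rw [det3]
  simp only [hw]
  ring

/-- The real-algebraic core: the seven vectors cannot be distributed as required. -/
lemma core {m : ℕ} (a b p q : Fin m → Fin 7 → ℝ)
    (ha : ∀ j k, 0 ≤ a j k) (hb : ∀ j k, 0 ≤ b j k)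
    (hpq : ∀ j k, p j k ^ 2 + q j k ^ 2 ≤ a j k * b j k)
    (hd : ∀ k, (∑ j, a j k) * (∑ j, b j k) - ∑ j, (p j k ^ 2 + q j k ^ 2) = 0)
    (ho : ∀ k l, (∑ j, a j k) * (∑ j, b j l) + (∑ j, a j l) * (∑ j, b j k)
      - 2 * ∑ j, (p j k * p j l + q j k * q j l) = 2 * (W k l : ℝ)) : False := by
  classical
  have hu : ∀ k j, (p j k ≠ 0 ∨ q j k ≠ 0) → ∀ i, i ≠ j → p i k = 0 ∧ q i k = 0 := by
    intro k j hj i hij
    have h1 : ∑ j, (p j k ^ 2 + q j k ^ 2) = ∑ j, (∑ i, a i k) * b j k := by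
      rw [← Finset.mul_sum]
      linarith [hd k]
    have hle : ∀ j, a j k ≤ ∑ i, a i k := fun j =>
      Finset.single_le_sum (f := fun i => a i k) (fun i _ => ha i k) (Finset.mem_univ j)
    have h2 : ∀ j ∈ (Finset.univ : Finset (Fin m)), p j k ^ 2 + q j k ^ 2 ≤ (∑ i, a i k) * b j k :=
      fun j _ => (hpq j k).trans (mul_le_mul_of_nonneg_right (hle j) (hb j k))
    have h3 := (Finset.sum_eq_sum_iff_of_le h2).1 h1 j (Finset.mem_univ j)
    have hpos : 0 < p j k ^ 2 + q j k ^ 2 := by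
      rcases hj with h | h
      · have := sq_pos_of_ne_zero h
        positivity
      · have := sq_pos_of_ne_zero h
        positivity
    have hbpos : 0 < b j k := by
      rcases (hb j k).lt_or_eq with h | h
      · exact h
      · exfalso
        rw [h3, ← h, mul_zero] at hpos
        exact lt_irrefl _ hpos
    have h4 : (∑ i, a i k) * b j k ≤ a j k * b j k := by
      rw [← h3]
      exact hpq j k
    have h5 : ∑ i, a i k ≤ a j k := le_of_mul_le_mul_right h4 hbpos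
    have h6 : a i k + a j k ≤ ∑ i, a i k := by
      have h := Finset.sum_le_sum_of_subset_of_nonneg (f := fun i => a i k)
        (Finset.subset_univ ({i, j} : Finset (Fin m))) (fun x _ _ => ha x k)
      rwa [Finset.sum_pair hij] at h
    have h7 : a i k = 0 := le_antisymm (by linarith) (ha i k)
    have h8 := hpq i k
    rw [h7, zero_mul] at h8
    have e1 := sq_nonneg (p i k)
    have e2 := sq_nonneg (q i k)
    exact ⟨pow_eq_zero_iff two_ne_zero |>.1 (by linarith),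
      pow_eq_zero_iff two_ne_zero |>.1 (by linarith)⟩
  have hex : ∀ k, ∃ o : Option (Fin m), (o = none ∧ ∀ j, p j k = 0 ∧ q j k = 0) ∨
      (∃ j, o = some j ∧ ∀ i, i ≠ j → p i k = 0 ∧ q i k = 0) := by
    intro k
    by_cases h : ∃ j, p j k ≠ 0 ∨ q j k ≠ 0
    · obtain ⟨j, hj⟩ := h
      exact ⟨some j, Or.inr ⟨j, rfl, hu k j hj⟩⟩
    · refine ⟨none, Or.inl ⟨rfl, fun j => ?_⟩⟩
      by_contra hc
      apply h
      refine ⟨j, ?_⟩
      by_contra hc'
      push Not at hc'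
      exact hc hc'
  choose κ hκ using hex
  obtain ⟨P, hP⟩ : ∃ P : Fin 7 → ℝ, ∀ k, P k = (κ k).elim 0 (fun j => p j k) := ⟨_, fun _ => rfl⟩
  obtain ⟨Q, hQ⟩ : ∃ Q : Fin 7 → ℝ, ∀ k, Q k = (κ k).elim 0 (fun j => q j k) := ⟨_, fun _ => rfl⟩
  have hs : ∀ k l, ∑ j, (p j k * p j l + q j k * q j l) =
      if κ k = κ l then P k * P l + Q k * Q l else 0 := by
    intro k l
    rcases hκ k with ⟨hk, hk'⟩ | ⟨j, hk, hk'⟩
    · have hP0 : P k = 0 := by rw [hP, hk]; rfl
      have hQ0 : Q k = 0 := by rw [hQ, hk]; rfl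
      rw [Finset.sum_eq_zero (fun j _ => by rw [(hk' j).1, (hk' j).2]; ring), hP0, hQ0]
      split_ifs <;> ring
    · have hsum : ∑ i, (p i k * p i l + q i k * q i l) = p j k * p j l + q j k * q j l := by
        rw [Finset.sum_eq_single j]
        · intro i _ hi
          rw [(hk' i hi).1, (hk' i hi).2]
          ring
        · intro h
          exact absurd (Finset.mem_univ j) h
      rw [hsum]
      have hPk : P k = p j k := by rw [hP, hk]; rfl
      have hQk : Q k = q j k := by rw [hQ, hk]; rfl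
      rcases hκ l with ⟨hl, hl'⟩ | ⟨i, hl, hl'⟩
      · rw [(hl' j).1, (hl' j).2, hk, hl, if_neg (by simp)]
        ring
      · by_cases hij : j = i
        · subst hij
          have hPl : P l = p j l := by rw [hP, hl]; rfl
          have hQl : Q l = q j l := by rw [hQ, hl]; rfl
          rw [hk, hl, if_pos rfl, hPk, hQk, hPl, hQl]
        · rw [(hl' j hij).1, (hl' j hij).2, hk, hl, if_neg (by simpa using hij)]
          ring
  rcases comb κ with ⟨y, hy, h⟩ | ⟨x, hx, h⟩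
  · have h3 := three (fun i => ∑ j, a j (y.1 i)) (fun i => ∑ j, b j (y.1 i))
      (fun i => ∑ j, a j (y.2 i)) (fun i => ∑ j, b j (y.2 i))
      (fun i j => (W (y.1 i) (y.2 j) : ℝ)) (by
        intro i j
        have := ho (y.1 i) (y.2 j)
        rw [hs, if_neg (h i j)] at this
        linarith)
    apply trip_ok y hy
    have : ((det3Z (fun i j => W (y.1 i) (y.2 j)) : ℤ) : ℝ) = 0 := by
      rw [← h3, det3, det3Z]
      push_cast
      ring
    exact_mod_cast this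
  · obtain ⟨hne, hK⟩ := tab_ok x hx
    exact five (fun i => ∑ j, a j (x.1 i)) (fun i => ∑ j, b j (x.1 i)) (fun i => P (x.1 i))
      (fun i => Q (x.1 i)) x.1 x.2.1 x.2.2 (by
        intro i j
        have := ho (x.1 i) (x.1 j)
        rw [hs, if_pos (h i j)] at this
        exact this) hne hK

/-! ### The main result -/

lemma eval_pol (z : Fin 7 → ℂ) : eval z (pol.map (algebraMap ℝ ℂ)) =
    ∑ k, ∑ l, (W k l : ℂ) * (z k * z l) := by
  rw [pol_eq]
  simp

lemma eval_single (k : Fin 7) : eval (Pi.single k 1) (pol.map (algebraMap ℝ ℂ)) = (W k k : ℂ) := by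
  rw [eval_pol]
  simp [Pi.single_apply]

lemma eval_add (k l : Fin 7) : eval (Pi.single k 1 + Pi.single l 1) (pol.map (algebraMap ℝ ℂ)) =
    (W k k : ℂ) + W k l + W l k + W l l := by
  rw [eval_pol]
  simp only [Pi.add_apply, add_mul, mul_add, Finset.sum_add_distrib]
  simp [Pi.single_apply]
  ring

lemma W_diag : ∀ k, W k k = 0 := by decide
lemma W_comm : ∀ k l, W k l = W l k := by decide

theorem pol_ne_eta (m : ℕ) (A : Fin m → Fin 7 → Matrix (Fin 2) (Fin 2) ℂ)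
    (hA : ∀ j k, (A j k).PosSemidef) :
    pol.map (algebraMap ℝ ℂ) ≠ eta (fun j => pencil (A j)) := by
  intro heq
  have hev : ∀ z : Fin 7 → ℂ, eval z (pol.map (algebraMap ℝ ℂ)) =
      eta (fun j => ∑ k, z k • A j k) := by
    intro z
    rw [heq, eval_pencil]
  obtain ⟨a, hadef⟩ : ∃ a : Fin m → Fin 7 → ℝ, ∀ j k, a j k = (A j k 0 0).re := ⟨_, fun _ _ => rfl⟩
  obtain ⟨b, hbdef⟩ : ∃ a : Fin m → Fin 7 → ℝ, ∀ j k, a j k = (A j k 1 1).re := ⟨_, fun _ _ => rfl⟩
  obtain ⟨p, hpdef⟩ : ∃ a : Fin m → Fin 7 → ℝ, ∀ j k, a j k = (A j k 0 1).re := ⟨_, fun _ _ => rfl⟩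
  obtain ⟨q, hqdef⟩ : ∃ a : Fin m → Fin 7 → ℝ, ∀ j k, a j k = (A j k 0 1).im := ⟨_, fun _ _ => rfl⟩
  have hdiag : ∀ j k i, 0 ≤ (A j k i i).re ∧ A j k i i = ((A j k i i).re : ℂ) := by
    intro j k i
    have h := (hA j k).diag_nonneg (i := i)
    rw [Complex.nonneg_iff] at h
    refine ⟨h.1, ?_⟩
    apply Complex.ext
    · simp
    · simp [← h.2]
  have h00 : ∀ j k, A j k 0 0 = (a j k : ℂ) := fun j k => by rw [hadef]; exact (hdiag j k 0).2
  have h11 : ∀ j k, A j k 1 1 = (b j k : ℂ) := fun j k => by rw [hbdef]; exact (hdiag j k 1).2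
  have h01 : ∀ j k, A j k 0 1 = (p j k : ℂ) + (q j k : ℂ) * Complex.I := fun j k => by
    rw [hpdef, hqdef, Complex.re_add_im]
  have h10 : ∀ j k, A j k 1 0 = (p j k : ℂ) - (q j k : ℂ) * Complex.I := fun j k => by
    have h : A j k 1 0 = (starRingEnd ℂ) (A j k 0 1) := ((hA j k).1.apply 1 0).symm
    rw [h, h01]
    simp [sub_eq_add_neg]
  have hdet : ∀ j k, p j k ^ 2 + q j k ^ 2 ≤ a j k * b j k := by
    intro j k
    have h := (hA j k).det_nonneg
    rw [Matrix.det_fin_two, h00, h11, h01, h10, Complex.nonneg_iff] at h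
    have h1 := h.1
    simp at h1
    nlinarith
  have e1 : ∀ k, eta (fun j => ∑ i, (Pi.single k 1 : Fin 7 → ℂ) i • A j i) =
      eta (fun j => A j k) := by
    intro k
    congr 1
    funext j
    simp [Pi.single_apply]
  have e2 : ∀ k l, eta (fun j => ∑ i, (Pi.single k 1 + Pi.single l 1 : Fin 7 → ℂ) i • A j i) =
      eta (fun j => A j k + A j l) := by
    intro k l
    congr 1
    funext j
    simp [Pi.single_apply, add_smul, Finset.sum_add_distrib]
  have hd : ∀ k, (∑ j, a j k) * (∑ j, b j k) - ∑ j, (p j k ^ 2 + q j k ^ 2) = 0 := by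
    intro k
    have h := hev (Pi.single k 1)
    rw [eval_single, e1, eta_two, W_diag] at h
    simp only [h00, h11, h01, h10] at h
    have h2 : (((∑ j, a j k) * (∑ j, b j k) - ∑ j, (p j k ^ 2 + q j k ^ 2) : ℝ) : ℂ) = 0 := by
      push_cast
      rw [Int.cast_zero] at h
      rw [h]
      congr 1
      refine Finset.sum_congr rfl fun j _ => ?_
      ring_nf
      rw [Complex.I_sq]
      ring
    exact_mod_cast h2
  refine core a b p q (fun j k => by rw [hadef]; exact (hdiag j k 0).1)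
    (fun j k => by rw [hbdef]; exact (hdiag j k 1).1) hdet hd ?_
  intro k l
  have h := hev (Pi.single k 1 + Pi.single l 1)
  rw [eval_add, e2, eta_two, W_diag, W_diag, W_comm l k] at h
  simp only [Matrix.add_apply, h00, h11, h01, h10] at h
  have h2 : (((∑ j, (a j k + a j l)) * (∑ j, (b j k + b j l))
      - ∑ j, ((p j k + p j l) ^ 2 + (q j k + q j l) ^ 2) : ℝ) : ℂ) = ((2 * (W k l : ℝ) : ℝ) : ℂ) := by
    push_cast
    rw [Int.cast_zero] at h
    have h3 : ∑ j, (((p j k : ℂ) + (p j l : ℂ)) ^ 2 + ((q j k : ℂ) + (q j l : ℂ)) ^ 2) =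
        ∑ j, ((p j k : ℂ) + (q j k : ℂ) * Complex.I + ((p j l : ℂ) + (q j l : ℂ) * Complex.I)) *
          ((p j k : ℂ) - (q j k : ℂ) * Complex.I + ((p j l : ℂ) - (q j l : ℂ) * Complex.I)) := by
      refine Finset.sum_congr rfl fun j _ => ?_
      ring_nf
      rw [Complex.I_sq]
      ring
    rw [h3, ← h]
    ring
  have h4 : (∑ j, (a j k + a j l)) * (∑ j, (b j k + b j l))
      - ∑ j, ((p j k + p j l) ^ 2 + (q j k + q j l) ^ 2) = 2 * (W k l : ℝ) := by
    exact_mod_cast h2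
  have h5 : ∑ j, ((p j k + p j l) ^ 2 + (q j k + q j l) ^ 2) =
      ∑ j, (p j k ^ 2 + q j k ^ 2) + ∑ j, (p j l ^ 2 + q j l ^ 2)
        + 2 * ∑ j, (p j k * p j l + q j k * q j l) := by
    rw [Finset.mul_sum, ← Finset.sum_add_distrib, ← Finset.sum_add_distrib]
    refine Finset.sum_congr rfl fun j _ => ?_
    ring
  rw [h5, Finset.sum_add_distrib, Finset.sum_add_distrib] at h4
  have d1 := hd k
  have d2 := hd l
  linarith

end Pool.Agent.H2.Pencil
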