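import Mathlib

set_option autoImplicit false

namespace Pool.Agent.Results.MP_daa8b9_co.Penrose

/-! ### Definitions -/

section Defs

/-- The number of classes of the equivalence relation generated by `r`. -/
noncomputable def classes {X : Type} (r : X → X → Prop) : ℕ := Nat.card (Quot r)

variable {D : Type} [Fintype D] [DecidableEq D]

/-- A plane graph is described by its set `D` of darts (half-edges), the permutation `σ` giving the
next dart around the same vertex, and the involution `α` exchanging the two darts of an edge.
This says that `α` is a fixed point free involution and that every vertex has degree 3. -/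
def IsCubicMap (σ α : Equiv.Perm D) : Prop :=
  (∀ d, α d ≠ d) ∧ (∀ d, α (α d) = d) ∧ (∀ d, σ d ≠ d) ∧ (∀ d, σ (σ (σ d)) = d)

/-- The graph is connected. -/
def IsConnectedMap (σ α : Equiv.Perm D) : Prop := classes (fun x y => y = σ x ∨ y = α x) = 1

/-- The (connected) map lies on the sphere: `V + F = E + 2`. -/
def IsPlaneMap (σ α : Equiv.Perm D) : Prop :=
  classes (fun x y => y = σ x) + classes (fun x y => y = σ (α x)) =
    classes (fun x y => y = α x) + 2

/-- `f` is a proper 3-edge-colouring (a colouring of the darts which is constant on edges). -/
def IsColouring (σ α : Equiv.Perm D) (f : D → Fin 3) : Prop :=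
  (∀ d, f (α d) = f d) ∧ ∀ d, σ d ≠ α d → f d ≠ f (σ d)

/-- The number of 3-edge-colourings. -/
noncomputable def numColourings (σ α : Equiv.Perm D) : ℕ :=
  Nat.card {f : D → Fin 3 // IsColouring σ α f}

/-- The half-edges of the medial graph are the pairs `(d, b)`: they sit on the edge of `d`, next to
the vertex of `d`, on the left (`b = false`) or on the right (`b = true`) of `d`.
The edges of the medial graph join `(d, false)` to `(σ d, true)`.  A state `s` chooses at every edge
the white pairing (`(d, b)` with `(α d, !b)`, the two half-edges on the same side of the edge) or the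
crossing pairing (`(d, b)` with `(α d, b)`). The curves of the state are the classes of this
relation. -/
def curveRel (σ α : Equiv.Perm D) (s : D → Bool) (x y : D × Bool) : Prop :=
  (x.2 = false ∧ y = (σ x.1, true)) ∨ y = (α x.1, if s x.1 then x.2 else !x.2)

/-- The Penrose states: one choice for every edge (`s d` is `true` when the state is crossing at
the edge of `d`). -/
def states (α : Equiv.Perm D) : Finset (D → Bool) :=
  Finset.univ.filter (fun s : D → Bool => ∀ d, s (α d) = s d)

/-- The number `cr(s)` of edges at which the state is crossing. -/
def crossings (s : D → Bool) : ℕ := (Finset.univ.filter (fun d => s d = true)).card / 2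

/-- The Penrose polynomial `P(λ) = ∑ (-1)^{cr(s)} λ^{c(s)}`, the sum over all states `s`. -/
noncomputable def penrose (σ α : Equiv.Perm D) (lam : ℤ) : ℤ :=
  ∑ s ∈ states α, (-1) ^ crossings s * lam ^ classes (curveRel σ α s)

end Defs

end Pool.Agent.Results.MP_daa8b9_co.Penrose
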